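import Pool.Agent.Helper95_DC.Pres

set_option autoImplicit false

/-!
Modules FILL and KILL: adding relators so that a subgroup becomes of finite index, or finite.
-/

namespace Pool.Agent.Helper38_DC

open Subgroup Pool.Agent.Helper95_DC

/-- a subgroup of `p`-power index `p ^ κ` in `K` together with `κ` elements generates `K`. -/
theorem gen_of_relIndex {p : ℕ} [Fact p.Prime] {F : Type} [Group F] (K : Subgroup F) (κ : ℕ) :
    ∀ H : Subgroup F, H ≤ K → H.relIndex K = p ^ κ →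
      ∃ x : Fin κ → F, (∀ i, x i ∈ K) ∧ K ≤ H ⊔ closure (Set.range x) := by
  have hp : p.Prime := Fact.out
  induction κ using Nat.strong_induction_on with
  | _ κ ih =>
    intro H hHK hidx
    by_cases hKH : K ≤ H
    · exact ⟨fun _ => 1, fun _ => one_mem _, hKH.trans le_sup_left⟩
    · obtain ⟨y, hyK, hyH⟩ := Set.not_subset.1 hKH
      have hκ : κ ≠ 0 := by
        intro h0
        rw [h0, pow_zero, relIndex_eq_one] at hidx
        exact hKH hidx
      set H' : Subgroup F := H ⊔ zpowers y with hH'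
      have hH'K : H' ≤ K := sup_le hHK ((zpowers_le).2 hyK)
      have hHH' : H ≤ H' := le_sup_left
      have hmul := relIndex_mul_relIndex H H' K hHH' hH'K
      have hne : H.relIndex H' ≠ 1 := by
        intro h1
        rw [relIndex_eq_one] at h1
        exact hyH (h1 (Subgroup.mem_sup_right (mem_zpowers y)))
      have hdvd : H'.relIndex K ∣ p ^ κ := by
        rw [← hidx, ← hmul]
        exact dvd_mul_left _ _
      obtain ⟨κ', hκ', hκ'2⟩ := (Nat.dvd_prime_pow hp).1 hdvd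
      have hlt : κ' < κ := by
        rcases Nat.lt_or_ge κ' κ with h | h
        · exact h
        · exfalso
          have h2 : κ' = κ := le_antisymm hκ' h
          rw [hidx, hκ'2, h2] at hmul
          have h3 : 0 < p ^ κ := pow_pos hp.pos _
          exact hne (Nat.eq_of_mul_eq_mul_right h3 (by rw [hmul, one_mul]))
      obtain ⟨x, hxK, hx⟩ := ih κ' hlt H' hH'K hκ'2
      refine ⟨fun i => if h : (i : ℕ) < κ' then x ⟨i, h⟩ else y, ?_, ?_⟩
      · intro i
        by_cases h : (i : ℕ) < κ'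
        · simp only [h, dif_pos]
          exact hxK _
        · simp only [h, dif_neg, not_false_eq_true]
          exact hyK
      · refine hx.trans (sup_le (sup_le le_sup_left ?_) ?_)
        · rw [zpowers_le]
          refine Subgroup.mem_sup_right (subset_closure ⟨⟨κ', hlt⟩, ?_⟩)
          simp
        · refine le_trans ?_ le_sup_right
          apply Subgroup.closure_mono
          rintro _ ⟨i, rfl⟩
          refine ⟨⟨i, lt_trans i.2 hlt⟩, ?_⟩
          simp

/-- the tail of a summable sequence can be made small. -/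
theorem exists_tail {f : ℕ → ℝ} (hs : Summable f) {ε : ℝ} (hε : 0 < ε) (m₀ : ℕ) :
    ∃ m₂, m₀ ≤ m₂ ∧ Summable (fun m => if m₂ ≤ m then f m else 0) ∧
      ∑' m, (if m₂ ≤ m then f m else 0) < ε := by
  have h1 := tendsto_sum_nat_add f
  have h2 := (h1.eventually (gt_mem_nhds hε)).and (Filter.eventually_ge_atTop m₀)
  obtain ⟨m₂, hm, hm2⟩ := h2.exists
  have hs' : Summable (fun k => (if m₂ ≤ k + m₂ then f (k + m₂) else 0)) := by
    have : (fun k => (if m₂ ≤ k + m₂ then f (k + m₂) else 0)) = fun k => f (k + m₂) := by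
      funext k
      rw [if_pos (Nat.le_add_left _ _)]
    rw [this]
    exact (summable_nat_add_iff m₂).2 hs
  have hs2 : Summable (fun m => if m₂ ≤ m then f m else 0) :=
    (summable_nat_add_iff (f := fun m => if m₂ ≤ m then f m else 0) m₂).1 hs'
  refine ⟨m₂, hm2, hs2, ?_⟩
  rw [← Summable.sum_add_tsum_nat_add m₂ hs2]
  have h3 : ∑ i ∈ Finset.range m₂, (if m₂ ≤ i then f i else 0) = 0 := by
    apply Finset.sum_eq_zero
    intro i hi
    rw [Finset.mem_range] at hi
    rw [if_neg (by omega)]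
  rw [h3, zero_add]
  have h4 : ∑' k, (if m₂ ≤ k + m₂ then f (k + m₂) else 0) = ∑' k, f (k + m₂) := by
    apply tsum_congr
    intro k
    rw [if_pos (Nat.le_add_left _ _)]
  rw [h4]
  exact hm

section steps

variable {p : ℕ} [Fact p.Prime] {t : ℝ} {F : Type} [Group F]

/-- First step: kill the elements of a summable sequence of finite families, from some level on. -/
theorem kill_tail (hQ : QuotStatement) (ht0 : 0 < t) (ht1 : t < 1) {N V : Subgroup F}
    {Fil : ℕ → Subgroup F} {b : ℝ} (hst : State p t N V Fil b) (hax : FilAx p N Fil)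
    (r : ℕ → ℕ) (x : ∀ m, Fin (r m) → F) (hx : ∀ m i, x m i ∈ Fil m)
    (hr : Summable (fun m => (r m : ℝ) * t ^ m)) (m₀ : ℕ) :
    ∃ m₂, m₀ ≤ m₂ ∧ ∃ (N₁ : Subgroup F) (Fil₁ : ℕ → Subgroup F) (b₁ : ℝ),
      State p t N₁ V Fil₁ b₁ ∧ N ≤ N₁ ∧ N₁ ≤ Fil m₂ ∧ (∀ m i, m₂ ≤ m → x m i ∈ N₁) ∧
      ∀ m, Fil m ≤ Fil₁ m := by
  have hidx : (0 : ℝ) < (V.index : ℝ) := by
    obtain ⟨k, hk⟩ := hst.V_index
    rw [hk]
    exact_mod_cast pow_pos (Fact.out : p.Prime).pos k
  obtain ⟨m₂, hm₂, hs, hlt⟩ := exists_tail hr (ε := b / (V.index : ℝ)) (div_pos hst.pos hidx) m₀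
  let r' : ℕ → ℕ := fun m => if m₂ ≤ m then r m else 0
  let ι : Type := Σ m : ℕ, Fin (r' m)
  have hr'le : ∀ m, r' m ≤ r m := by
    intro m
    by_cases h : m₂ ≤ m
    · simp only [r', h, if_true, le_refl]
    · simp only [r', h, if_false, Nat.zero_le]
  have hr'm : ∀ m, Fin (r' m) → m₂ ≤ m := by
    intro m i
    by_contra h
    have h1 : r' m = 0 := by simp only [r', h, if_false]
    have h2 := i.2
    omega
  let T : ι → F := fun a => x a.1 (Fin.castLE (hr'le a.1) a.2)
  let e : ι → ℕ := fun a => a.1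
  have hfib : ∀ m, ∑' _ : Fin (r' m), t ^ m = if m₂ ≤ m then (r m : ℝ) * t ^ m else 0 := by
    intro m
    rw [tsum_fintype, Finset.sum_const, Finset.card_univ, Fintype.card_fin, nsmul_eq_mul]
    by_cases h : m₂ ≤ m
    · simp only [r', h, if_true]
    · simp only [r', h, if_false, Nat.cast_zero, zero_mul]
  have hsum : Summable (fun a : ι => t ^ e a) := by
    rw [summable_sigma_of_nonneg (fun a => by positivity)]
    refine ⟨fun m => Summable.of_finite, ?_⟩
    show Summable (fun m => ∑' _ : Fin (r' m), t ^ m)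
    simp_rw [hfib]
    exact hs
  have htsum : ∑' a : ι, t ^ e a = ∑' m, (if m₂ ≤ m then (r m : ℝ) * t ^ m else 0) := by
    rw [hsum.tsum_sigma]
    exact tsum_congr hfib
  have hlt' : (V.index : ℝ) * ∑' a : ι, t ^ e a < b := by
    rw [htsum]
    calc (V.index : ℝ) * _ < (V.index : ℝ) * (b / (V.index : ℝ)) :=
          mul_lt_mul_of_pos_left hlt hidx
      _ = b := by field_simp
  have hT : ∀ a, T a ∈ Fil (e a) := fun a => hx _ _
  have hst1 := hQ p t ht0 ht1 F N V Fil b hst ι T e hT hsum hlt'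
  refine ⟨m₂, hm₂, _, _, _, hst1, le_sup_left, ?_, ?_, fun m => le_sup_left⟩
  · apply sup_le (hax.N_le m₂)
    have := hst.Fil_normal m₂
    apply Subgroup.normalClosure_le_normal
    rintro _ ⟨a, rfl⟩
    exact hax.anti (hr'm a.1 a.2) (hT a)
  · intro m i hm
    apply Subgroup.mem_sup_right
    apply Subgroup.subset_normalClosure
    have h1 : r' m = r m := by simp only [r', hm, if_true]
    refine ⟨⟨m, Fin.cast h1.symm i⟩, ?_⟩
    show x m _ = x m i
    congr 1

/-- Second step: finitely many elements are moved into a subgroup by killing deep elements. -/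
theorem kill_finite (hQ : QuotStatement) (ht0 : 0 < t) (ht1 : t < 1) {N₁ V : Subgroup F}
    {Fil Fil₁ : ℕ → Subgroup F} {b₁ : ℝ} (hst : State p t N₁ V Fil₁ b₁)
    (hFil : ∀ m, Fil m ≤ Fil₁ m) (hanti : Antitone Fil) (hn : ∀ m, (Fil m).Normal) (m₂ : ℕ)
    (hN₁ : N₁ ≤ Fil m₂) (ι : Type) [Fintype ι] (v : ι → F) (Q : Subgroup F)
    (hw : ∀ m, ∃ w : ι → F, (∀ i, w i ∈ Fil m) ∧ ∀ i, v i * (w i)⁻¹ ∈ Q) :
    ∃ (N₂ : Subgroup F) (Fil₂ : ℕ → Subgroup F) (b₂ : ℝ), State p t N₂ V Fil₂ b₂ ∧ N₁ ≤ N₂ ∧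
      N₂ ≤ Fil m₂ ∧ ∀ i, v i ∈ Q ⊔ N₂ := by
  have hidx : (0 : ℝ) < (V.index : ℝ) := by
    obtain ⟨k, hk⟩ := hst.V_index
    rw [hk]
    exact_mod_cast pow_pos (Fact.out : p.Prime).pos k
  obtain ⟨m₃, hm₃, hm₃'⟩ : ∃ m₃, m₂ ≤ m₃ ∧
      (V.index : ℝ) * ((Fintype.card ι : ℝ) * t ^ m₃) < b₁ := by
    have h1 : Filter.Tendsto (fun m : ℕ => (V.index : ℝ) * ((Fintype.card ι : ℝ) * t ^ m))
        Filter.atTop (nhds ((V.index : ℝ) * ((Fintype.card ι : ℝ) * 0))) :=
      ((tendsto_pow_atTop_nhds_zero_of_lt_one ht0.le ht1).const_mul _).const_mul _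
    rw [mul_zero, mul_zero] at h1
    obtain ⟨m, h2, h3⟩ := ((h1.eventually (gt_mem_nhds hst.pos)).and
      (Filter.eventually_ge_atTop m₂)).exists
    exact ⟨m, h3, h2⟩
  obtain ⟨w, hwm, hwv⟩ := hw m₃
  have hts : ∑' _ : ι, t ^ m₃ = (Fintype.card ι : ℝ) * t ^ m₃ := by
    rw [tsum_fintype, Finset.sum_const, Finset.card_univ, nsmul_eq_mul]
  have hst2 := hQ p t ht0 ht1 F N₁ V Fil₁ b₁ hst ι w (fun _ => m₃) (fun i => hFil _ (hwm i))
    Summable.of_finite (by rw [hts]; exact hm₃')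
  refine ⟨_, _, _, hst2, le_sup_left, ?_, ?_⟩
  · apply sup_le hN₁
    have := hn m₂
    apply Subgroup.normalClosure_le_normal
    rintro _ ⟨i, rfl⟩
    exact hanti hm₃ (hwm i)
  · intro i
    have h1 : v i = (v i * (w i)⁻¹) * w i := by group
    rw [h1]
    exact mul_mem (Subgroup.mem_sup_left (hwv i)) (Subgroup.mem_sup_right
      (Subgroup.mem_sup_right (Subgroup.subset_normalClosure ⟨i, rfl⟩)))

end steps

/-- MODULE FILL from QUOT and BASIC. -/
theorem fill (hQ : QuotStatement) (hB : BasicStatement) : FillStatement := by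
  intro p _ t ht0 ht1 F _ N V Fil b hst P κ hNP hκ hsum m₀
  obtain ⟨hax, hFil0, hFil1, hFilidx, hunb, hlast⟩ := hB p t ht0 ht1 F N V Fil b hst
  have hx : ∀ m, ∃ x : Fin (κ m) → F, (∀ i, x i ∈ Fil m) ∧
      Fil m ≤ ((P ⊓ Fil m) ⊔ Fil (m + 1)) ⊔ closure (Set.range x) := by
    intro m
    exact gen_of_relIndex (Fil m) (κ m) _ (sup_le inf_le_right (hax.anti (Nat.le_succ m))) (hκ m)
  choose x hxm hxg using hx
  obtain ⟨m₂, hm₂, N₁, Fil₁, b₁, hst₁, hNN₁, hN₁m, hxN₁, hFF₁⟩ :=
    kill_tail hQ ht0 ht1 hst hax κ x hxm hsum m₀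
  have hN₁n : N₁.Normal := hst₁.N_normal
  -- `Fil m₂ ≤ P N₁ Fil m` for all `m`
  have hstep : ∀ m, Fil m₂ ≤ (P ⊔ N₁) ⊔ Fil m := by
    intro m
    rcases le_total m m₂ with h | h
    · exact (hax.anti h).trans le_sup_right
    · induction m, h using Nat.le_induction with
      | base => exact le_sup_right
      | succ m hm ih =>
        refine ih.trans (sup_le le_sup_left ?_)
        refine (hxg m).trans (sup_le (sup_le ?_ le_sup_right) ?_)
        · exact inf_le_left.trans (le_sup_left.trans le_sup_left)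
        · rw [closure_le]
          rintro _ ⟨i, rfl⟩
          exact Subgroup.mem_sup_left (Subgroup.mem_sup_right (hxN₁ m i hm))
  -- `Fil m₂` is finitely generated modulo `N`
  obtain ⟨Y, hY1, hY2, d, φ, ι, R, e, hd, hDm, hrest⟩ := hst.pres
  have hDfi : (D p d m₂).FiniteIndex := D_finiteIndex hd m₂
  have hDfg : (D p d m₂).FG := by
    rw [← Group.fg_iff_subgroup_fg]
    infer_instance
  obtain ⟨S, hS⟩ := hDfg
  have hgen : Fil m₂ = closure (φ '' (S : Set (FreeGroup Y))) ⊔ N := by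
    rw [← MonoidHom.map_closure, hS, hDm m₂, inf_eq_right.2 (hst.Fil_le m₂)]
  let v : S → F := fun s => φ s
  have hv : ∀ i, v i ∈ Fil m₂ := by
    intro i
    rw [hgen]
    exact Subgroup.mem_sup_left (subset_closure ⟨i, i.2, rfl⟩)
  obtain ⟨N₂, Fil₂, b₂, hst₂, hN₁₂, hN₂m, hvN⟩ := kill_finite hQ ht0 ht1 hst₁ hFF₁ hax.anti
    hst.Fil_normal m₂ hN₁m S v (P ⊔ N₁) (by
      intro m
      have h1 : ∀ i : S, ∃ w ∈ Fil m, v i * w⁻¹ ∈ P ⊔ N₁ := by
        intro i
        have h2 := hstep m (hv i)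
        have := hst.Fil_normal m
        rw [Subgroup.mem_sup_of_normal_right] at h2
        obtain ⟨a, ha, w, hw, haw⟩ := h2
        refine ⟨w, hw, ?_⟩
        rw [← haw]
        simpa using ha
      choose w hw1 hw2 using h1
      exact ⟨w, hw1, hw2⟩)
  refine ⟨N₂, Fil₂, b₂, hst₂, hNN₁.trans hN₁₂, hN₂m.trans (hax.anti hm₂), m₂, ?_⟩
  rw [hgen]
  apply sup_le
  · rw [closure_le]
    rintro _ ⟨s, hs, rfl⟩
    have h1 := hvN ⟨s, hs⟩
    have h2 : (P ⊔ N₁) ⊔ N₂ ≤ P ⊔ N₂ := sup_le (sup_le_sup_left hN₁₂ P) le_sup_right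
    exact h2 h1
  · exact (hNN₁.trans hN₁₂).trans le_sup_right

theorem qf_ge {p : ℕ} (hp : 2 ≤ p) {t : ℝ} (ht : 0 < t) (m : ℕ) : 1 + t ^ m ≤ qf p t m := by
  unfold qf
  have h1 : ({0, 1} : Finset ℕ) ⊆ Finset.range p := by
    intro i hi
    rw [Finset.mem_insert, Finset.mem_singleton] at hi
    rw [Finset.mem_range]
    rcases hi with rfl | rfl <;> omega
  have h2 : ∑ i ∈ ({0, 1} : Finset ℕ), t ^ (i * m) = 1 + t ^ m := by
    rw [Finset.sum_pair (by norm_num)]
    simp
  rw [← h2]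
  exact Finset.sum_le_sum_of_subset_of_nonneg h1 (fun i _ _ => by positivity)

/-- MODULE KILL from QUOT, BASIC and PCHAIN. -/
theorem kill (hQ : QuotStatement) (hB : BasicStatement) (hP : PChainStatement) :
    KillStatement := by
  intro p hpp t ht0 ht1 F _ N V Fil b hst P ω hNP hPV hgen hω m₀
  obtain ⟨hax, hFil0, hFil1, hFilidx, hunb, hlast⟩ := hB p t ht0 ht1 F N V Fil b hst
  have hNn := hst.N_normal
  have hp2 : 2 ≤ p := (Fact.out : p.Prime).two_le
  have hω0 : ∀ (ω' : ℝ) (P' : Subgroup F), Gen t N P' Fil ω' → 0 ≤ ω' := by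
    rintro ω' P' ⟨ι, _, s, e, _, _, h⟩
    exact le_trans (Finset.sum_nonneg (fun i _ => by positivity)) h
  -- the chain
  have hchain : ∀ n : ℕ, ∃ (r : ℕ → ℕ), (∀ j, j < n →
      (P ⊓ Fil (j + 1 + 1)).relIndex (P ⊓ Fil (j + 1)) = p ^ r j) ∧
      Gen t N (P ⊓ Fil (n + 1)) Fil (1 + (ω - 1) * ∏ j ∈ Finset.range n, qf p t (j + 1) ^ r j) := by
    intro n
    induction n with
    | zero =>
      refine ⟨fun _ => 0, fun j hj => absurd hj (Nat.not_lt_zero _), ?_⟩
      rw [Finset.prod_range_zero, mul_one]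
      have h1 : P ⊓ Fil (0 + 1) = P := by
        rw [zero_add, hFil1]
        exact inf_eq_left.2 hPV
      rw [h1]
      have h2 : 1 + (ω - 1) = ω := by ring
      rw [h2]
      exact hgen
    | succ n ih =>
      obtain ⟨r, hr, hg⟩ := ih
      obtain ⟨r', hr', hg'⟩ := hP p t ht0 ht1 F N (P ⊓ Fil (n + 1)) Fil _ (n + 1)
        (Nat.succ_pos n) hNn (le_inf hNP (hax.N_le _)) hax inf_le_right hg
      have h1 : (P ⊓ Fil (n + 1)) ⊓ Fil (n + 1 + 1) = P ⊓ Fil (n + 1 + 1) := by
        rw [inf_assoc, inf_eq_right.2 (hax.anti (Nat.le_succ (n + 1)))]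
      rw [h1] at hr' hg'
      refine ⟨fun j => if j = n then r' else r j, ?_, ?_⟩
      · intro j hj
        by_cases hjn : j = n
        · subst hjn
          simp only [if_true]
          exact hr'
        · simp only [hjn, if_false]
          exact hr j (by omega)
      · rw [Finset.prod_range_succ]
        simp only [if_true]
        have h2 : ∏ x ∈ Finset.range n, qf p t (x + 1) ^ (if x = n then r' else r x) =
            ∏ x ∈ Finset.range n, qf p t (x + 1) ^ r x := by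
          apply Finset.prod_congr rfl
          intro j hj
          rw [Finset.mem_range] at hj
          rw [if_neg (by omega)]
        rw [h2]
        have h3 : 1 + (ω - 1) * ((∏ x ∈ Finset.range n, qf p t (x + 1) ^ r x) *
            qf p t (n + 1) ^ r') = 1 + (1 + (ω - 1) * ∏ j ∈ Finset.range n, qf p t (j + 1) ^ r j - 1) *
              qf p t (n + 1) ^ r' := by ring
        rw [h3]
        exact hg'
  -- the exponents
  have hex : ∀ m, ∃ k, (P ⊓ Fil (m + 1)).relIndex (P ⊓ Fil m) = p ^ k := by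
    intro m
    rcases Nat.eq_zero_or_pos m with h | h
    · subst h
      refine ⟨0, ?_⟩
      rw [pow_zero, relIndex_eq_one, hFil0, zero_add, hFil1]
    · obtain ⟨r, hr, -⟩ := hchain m
      refine ⟨r (m - 1), ?_⟩
      have h1 := hr (m - 1) (by omega)
      have h2 : m - 1 + 1 = m := by omega
      rw [h2] at h1
      exact h1
  choose k hk using hex
  have hprod : ∀ n, ∏ j ∈ Finset.range n, qf p t (j + 1) ^ k (j + 1) ≤ 1 / (1 - ω) := by
    intro n
    obtain ⟨r, hr, hg⟩ := hchain n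
    have h1 : ∀ j, j < n → k (j + 1) = r j := by
      intro j hj
      have h2 := hr j hj
      rw [hk (j + 1)] at h2
      exact Nat.pow_right_injective hp2 h2
    have h2 := hω0 _ _ hg
    have h3 : ∏ j ∈ Finset.range n, qf p t (j + 1) ^ k (j + 1) =
        ∏ j ∈ Finset.range n, qf p t (j + 1) ^ r j := by
      apply Finset.prod_congr rfl
      intro j hj
      rw [h1 j (Finset.mem_range.1 hj)]
    rw [h3, le_div_iff₀ (by linarith)]
    linarith
  have hpart : ∀ n, ∑ j ∈ Finset.range n, (k (j + 1) : ℝ) * t ^ (j + 1) ≤ 1 / (1 - ω) := by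
    intro n
    refine le_trans ?_ (hprod n)
    have h1 : 1 + ∑ j ∈ Finset.range n, (k (j + 1) : ℝ) * t ^ (j + 1) ≤
        ∏ j ∈ Finset.range n, qf p t (j + 1) ^ k (j + 1) := by
      induction n with
      | zero => simp
      | succ n ih =>
        rw [Finset.sum_range_succ, Finset.prod_range_succ]
        have h2 : 1 + (k (n + 1) : ℝ) * t ^ (n + 1) ≤ qf p t (n + 1) ^ k (n + 1) := by
          refine le_trans ?_ (pow_le_pow_left₀ (by positivity) (qf_ge hp2 ht0 (n + 1)) _)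
          exact one_add_mul_le_pow (by have : 0 < t ^ (n + 1) := by positivity
                                       linarith) _
        have h3 : 0 ≤ ∑ j ∈ Finset.range n, (k (j + 1) : ℝ) * t ^ (j + 1) :=
          Finset.sum_nonneg (fun j _ => by positivity)
        have h4 : 0 ≤ (k (n + 1) : ℝ) * t ^ (n + 1) := by positivity
        calc 1 + (∑ j ∈ Finset.range n, (k (j + 1) : ℝ) * t ^ (j + 1) +
              (k (n + 1) : ℝ) * t ^ (n + 1))
            ≤ (1 + ∑ j ∈ Finset.range n, (k (j + 1) : ℝ) * t ^ (j + 1)) *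
              (1 + (k (n + 1) : ℝ) * t ^ (n + 1)) := by nlinarith
          _ ≤ _ := mul_le_mul ih h2 (by linarith) (le_trans (by linarith) ih)
    linarith
  have hsummable : Summable (fun m => (k m : ℝ) * t ^ m) := by
    have h1 : Summable (fun j => (k (j + 1) : ℝ) * t ^ (j + 1)) :=
      summable_of_sum_range_le (fun j => by positivity) hpart
    exact (summable_nat_add_iff (f := fun m => (k m : ℝ) * t ^ m) 1).1 h1
  -- generators of the quotients
  have hx : ∀ m, ∃ x : Fin (k m) → F, (∀ i, x i ∈ P ⊓ Fil m) ∧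
      P ⊓ Fil m ≤ (P ⊓ Fil (m + 1)) ⊔ closure (Set.range x) := by
    intro m
    exact gen_of_relIndex (P ⊓ Fil m) (k m) _
      (inf_le_inf_left _ (hax.anti (Nat.le_succ m))) (hk m)
  choose x hxm hxg using hx
  obtain ⟨m₂, hm₂, N₁, Fil₁, b₁, hst₁, hNN₁, hN₁m, hxN₁, hFF₁⟩ :=
    kill_tail hQ ht0 ht1 hst hax k x (fun m i => (hxm m i).2) hsummable (max m₀ 1)
  have hN₁n : N₁.Normal := hst₁.N_normal
  have hstep : ∀ m, m₂ ≤ m → P ⊓ Fil m₂ ≤ N₁ ⊔ (P ⊓ Fil m) := by
    intro m h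
    induction m, h using Nat.le_induction with
    | base => exact le_sup_right
    | succ m hm ih =>
      refine ih.trans (sup_le le_sup_left ?_)
      refine (hxg m).trans (sup_le le_sup_right ?_)
      rw [closure_le]
      rintro _ ⟨i, rfl⟩
      exact Subgroup.mem_sup_left (hxN₁ m i hm)
  -- `P ⊓ Fil m₂` is finitely generated modulo `N`
  obtain ⟨r, -, hg⟩ := hchain (m₂ - 1)
  have hm1 : m₂ - 1 + 1 = m₂ := by
    have := le_trans (le_max_right m₀ 1) hm₂
    omega
  rw [hm1] at hg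
  obtain ⟨ι, hι, s, e, hse, hcl, -⟩ := hg
  have hs : ∀ i, s i ∈ P ⊓ Fil m₂ := by
    intro i
    rw [← hcl]
    exact Subgroup.mem_sup_left (subset_closure ⟨i, rfl⟩)
  obtain ⟨N₂, Fil₂, b₂, hst₂, hN₁₂, hN₂m, hvN⟩ := kill_finite hQ ht0 ht1 hst₁ hFF₁ hax.anti
    hst.Fil_normal m₂ hN₁m ι s N₁ (by
      intro m
      have h1 : ∀ i : ι, ∃ w ∈ Fil m, s i * w⁻¹ ∈ N₁ := by
        intro i
        have h2 := hstep (max m m₂) (le_max_right _ _) (hs i)
        rw [Subgroup.mem_sup_of_normal_left] at h2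
        obtain ⟨a, ha, w, hw, haw⟩ := h2
        refine ⟨w, hax.anti (le_max_left m m₂) hw.2, ?_⟩
        rw [← haw]
        simpa using ha
      choose w hw1 hw2 using h1
      exact ⟨w, hw1, hw2⟩)
  refine ⟨N₂, Fil₂, b₂, hst₂, hNN₁.trans hN₁₂,
    hN₂m.trans (hax.anti ((le_max_left m₀ 1).trans hm₂)), m₂, ?_⟩
  rw [← hcl]
  apply sup_le
  · rw [closure_le]
    rintro _ ⟨i, rfl⟩
    exact (sup_le hN₁₂ le_rfl : N₁ ⊔ N₂ ≤ N₂) (hvN i)
  · exact hNN₁.trans hN₁₂

end Pool.Agent.Helper38_DC
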