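import Pool.Agent.Helper95_DC.Sys

set_option autoImplicit false

/-!
Module LOCF: no nontrivial homomorphism from the Bernoulli orbit relation of a Kazhdan group to
the orbit relation of a locally finite group (the spectral gap and ergodicity are hypotheses).
-/

namespace Pool.Agent.Helper38_DC

open MeasureTheory Pool.Agent.Helper95_DC

/-- a probability measure on the line without atoms has a median level. -/
theorem exists_half (ν : Measure ℝ) [IsProbabilityMeasure ν] (h : ∀ r : ℝ, ν {r} = 0) :
    ∃ a : ℝ, ν.real (Set.Iic a) = 1 / 2 := by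
  have hcont : Continuous (ProbabilityTheory.cdf ν) := by
    rw [continuous_iff_continuousAt]
    intro a
    rw [(ProbabilityTheory.cdf ν).mono.continuousAt_iff_leftLim_eq_rightLim,
      (ProbabilityTheory.cdf ν).rightLim_eq]
    have h1 := (ProbabilityTheory.cdf ν).measure_singleton a
    rw [ProbabilityTheory.measure_cdf, h a] at h1
    have h2 : (ProbabilityTheory.cdf ν) a - Function.leftLim (ProbabilityTheory.cdf ν) a ≤ 0 :=
      ENNReal.ofReal_eq_zero.1 h1.symm
    have h3 := (ProbabilityTheory.cdf ν).mono.leftLim_le (le_refl a)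
    linarith
  have h0 : ∃ a, ProbabilityTheory.cdf ν a ≤ 1 / 2 := by
    have := (ProbabilityTheory.tendsto_cdf_atBot ν).eventually (gt_mem_nhds (show (0 : ℝ) < 1 / 2 by norm_num))
    obtain ⟨a, ha⟩ := this.exists
    exact ⟨a, ha.le⟩
  have h1 : ∃ a, 1 / 2 ≤ ProbabilityTheory.cdf ν a := by
    have := (ProbabilityTheory.tendsto_cdf_atTop ν).eventually (lt_mem_nhds (show (1 / 2 : ℝ) < 1 by norm_num))
    obtain ⟨a, ha⟩ := this.exists
    exact ⟨a, ha.le⟩
  obtain ⟨a, ha⟩ := mem_range_of_exists_le_of_exists_ge hcont h0 h1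
  exact ⟨a, by rw [← ha, ProbabilityTheory.cdf_eq_real]⟩

/-- MODULE LOCF, from the modules GAP and MIX. -/
theorem locf_of_gap (hgap : GapStatement) (hmix : MixStatement) : LocfStatement := by
  intro G _ _ _ S C hC hK N hN Y _ _ _ hact f hf hfN
  have hErg : (bX G).Erg := hmix.2.2 G (X0 G) (bX G) (hmix.1 G unitInterval volume)
  by_contra hcon
  push Not at hcon
  set μ := (bX G).P with hμ
  -- exhaust `N` by finite subgroups
  obtain ⟨e, he⟩ := exists_surjective_nat N
  let F : ℕ → Subgroup G := fun k => Subgroup.closure ((fun i => (e i : G)) '' {i | i ≤ k})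
  have hFN : ∀ k, F k ≤ N := by
    intro k
    rw [Subgroup.closure_le]
    rintro _ ⟨i, _, rfl⟩
    exact (e i).2
  have hFfin : ∀ k, Finite (F k) := by
    intro k
    apply hN (F k) (hFN k)
    rw [Subgroup.fg_iff]
    exact ⟨_, rfl, (Set.finite_le_nat k).image _⟩
  have hFmono : Monotone F := by
    intro i j hij
    apply Subgroup.closure_mono
    apply Set.image_mono
    intro a ha
    exact le_trans ha hij
  have hFex : ∀ n ∈ N, ∃ k, n ∈ F k := by
    intro n hn
    obtain ⟨i, hi⟩ := he ⟨n, hn⟩
    refine ⟨i, Subgroup.subset_closure ⟨i, le_refl i, ?_⟩⟩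
    simp only
    rw [hi]
  -- the invariant functions
  let ι : Y → ℝ := embeddingReal Y
  have hι : MeasurableEmbedding ι := measurableEmbedding_embeddingReal Y
  let ik : ℕ → Y → ℝ := fun k y => ⨅ n : F k, ι ((n : G) • y)
  have hikm : ∀ k, Measurable (ik k) := by
    intro k
    have := hFfin k
    exact Measurable.iInf (fun n => hι.measurable.comp (hact n))
  have hikinv : ∀ k (n : G), n ∈ F k → ∀ y, ik k (n • y) = ik k y := by
    intro k n hn y
    let φ : F k ≃ F k := Equiv.mulRight ⟨n, hn⟩
    have h1 : ∀ m : F k, ι ((m : G) • n • y) = (fun m : F k => ι ((m : G) • y)) (φ m) := by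
      intro m
      have : ((φ m : F k) : G) = m * n := rfl
      simp only
      rw [this, mul_smul]
    show (⨅ m : F k, ι ((m : G) • n • y)) = ⨅ m : F k, ι ((m : G) • y)
    rw [iInf_congr h1]
    exact φ.surjective.iInf_comp (g := fun m : F k => ι ((m : G) • y))
  have hikorb : ∀ k (y y' : Y), ik k y = ik k y' → y' ∈ MulAction.orbit G y := by
    intro k y y' h
    have := hFfin k
    obtain ⟨n, hn⟩ := exists_eq_ciInf_of_finite (f := fun n : F k => ι ((n : G) • y))
    obtain ⟨n', hn'⟩ := exists_eq_ciInf_of_finite (f := fun n : F k => ι ((n : G) • y'))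
    have h1 : ι ((n : G) • y) = ι ((n' : G) • y') := by
      have h2 : ι ((n : G) • y) = ik k y := hn
      have h3 : ι ((n' : G) • y') = ik k y' := hn'
      rw [h2, h3, h]
    have h2 := hι.injective h1
    refine ⟨(n' : G)⁻¹ * n, ?_⟩
    simp only
    rw [mul_smul, h2, inv_smul_smul]
  -- the push forwards have no atoms
  have hat : ∀ k (r : ℝ), (μ.map (fun x => ik k (f x))) {r} = 0 := by
    intro k r
    have hm : Measurable (fun x => ik k (f x)) := (hikm k).comp hf
    rw [Measure.map_apply hm (measurableSet_singleton r)]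
    by_cases hne : ((fun x => ik k (f x)) ⁻¹' {r}).Nonempty
    · obtain ⟨x₀, hx₀⟩ := hne
      refine measure_mono_null ?_ (hcon (f x₀))
      intro x hx
      have h1 : ik k (f x₀) = ik k (f x) := by
        rw [Set.mem_preimage, Set.mem_singleton_iff] at hx hx₀
        rw [hx, hx₀]
      exact hikorb k _ _ h1
    · rw [Set.not_nonempty_iff_eq_empty] at hne
      rw [hne]
      exact measure_empty
  -- almost invariance
  have halm : ∀ g : G, ∀ ε : ℝ, 0 < ε → ∃ k₀, ∀ k, k₀ ≤ k →
      μ.real {x | ik k (f ((bX G).T g x)) ≠ ik k (f x)} ≤ ε := by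
    intro g ε hε
    have hTm : Measurable ((bX G).T g) := ((bX G).mp g).measurable
    let B : ℕ → Set (X0 G) := fun k => {x | ik k (f ((bX G).T g x)) ≠ ik k (f x)}
    -- the bad sets
    let D : ℕ → Set (X0 G) := fun k => {x | ¬ ∃ n ∈ F k, f ((bX G).T g x) = n • f x}
    have hBD : ∀ k, B k ⊆ D k := by
      intro k x hx hex
      obtain ⟨n, hn, hfn⟩ := hex
      apply hx
      rw [hfn]
      exact hikinv k n hn _
    have hDm : ∀ k, MeasurableSet (D k) := by
      intro k
      have := hFfin k
      have h1 : D k = (⋃ n : F k, {x | f ((bX G).T g x) = (n : G) • f x})ᶜ := by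
        ext x
        simp only [D, Set.mem_ofPred_eq, Set.mem_compl_iff, Set.mem_iUnion, Subtype.exists,
          exists_prop]
      rw [h1]
      apply MeasurableSet.compl
      apply MeasurableSet.iUnion
      intro n
      exact measurableSet_eq_fun (hf.comp hTm) ((hact n).comp hf)
    have hDanti : Antitone D := by
      intro i j hij x hx hex
      obtain ⟨n, hn, hfn⟩ := hex
      exact hx ⟨n, hFmono hij hn, hfn⟩
    have hDinter : μ (⋂ k, D k) = 0 := by
      refine measure_mono_null ?_ (ae_iff.1 (hfN g))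
      intro x hx hex
      obtain ⟨n, hn, hfn⟩ := hex
      obtain ⟨k, hk⟩ := hFex n hn
      exact (Set.mem_iInter.1 hx k) ⟨n, hk, hfn⟩
    have hlim := tendsto_measure_iInter_atTop (μ := μ) (s := D)
      (fun k => (hDm k).nullMeasurableSet) hDanti ⟨0, measure_ne_top _ _⟩
    rw [hDinter] at hlim
    have h2 := (ENNReal.tendsto_toReal (ENNReal.zero_ne_top)).comp hlim
    rw [ENNReal.toReal_zero] at h2
    have h3 := h2.eventually (gt_mem_nhds hε)
    obtain ⟨k₀, hk₀⟩ := Filter.eventually_atTop.1 h3
    refine ⟨k₀, fun k hk => ?_⟩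
    refine le_trans (measureReal_mono (hBD k)) ?_
    exact (hk₀ k hk).le
  -- choose a level
  set ε : ℝ := 1 / (8 * (C ^ 2 + 1)) with hε
  have hεpos : 0 < ε := by positivity
  have hk : ∃ k, ∀ g ∈ S, μ.real {x | ik k (f ((bX G).T g x)) ≠ ik k (f x)} ≤ ε := by
    choose k₀ hk₀ using fun g => halm g ε hεpos
    refine ⟨S.sup k₀, fun g hg => hk₀ g _ (Finset.le_sup hg)⟩
  obtain ⟨k, hk⟩ := hk
  have hm : Measurable (fun x => ik k (f x)) := (hikm k).comp hf
  have hprob : IsProbabilityMeasure (μ.map (fun x => ik k (f x))) :=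
    Measure.isProbabilityMeasure_map hm.aemeasurable
  obtain ⟨a, ha⟩ := exists_half (μ.map (fun x => ik k (f x))) (hat k)
  let A : Set (X0 G) := {x | ik k (f x) ≤ a}
  have hA : MeasurableSet A := measurableSet_le hm measurable_const
  have hAval : μ.real A = 1 / 2 := by
    rw [← ha, measureReal_def, measureReal_def, Measure.map_apply hm measurableSet_Iic]
    rfl
  have hg := hgap G S C hC hK (X0 G) (bX G) hErg A hA ε hεpos.le (by
    intro g hg
    refine le_trans (measureReal_mono ?_) (hk g hg)
    intro x hx heq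
    apply hx
    show ik k (f ((bX G).T g x)) ≤ a ↔ ik k (f x) ≤ a
    rw [heq])
  rw [← hμ, hAval] at hg
  have h5 : C ^ 2 * ε ≤ 1 / 8 := by
    rw [hε, mul_one_div, div_le_div_iff₀ (by positivity) (by norm_num)]
    nlinarith [sq_nonneg C]
  linarith

end Pool.Agent.Helper38_DC
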