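import Pool.Agent.Helper38_DC.RadBasic

set_option autoImplicit false

/-!
Module RAD, second part: unboundedness of the indices and the final statement.
-/

namespace Pool.Agent.Helper38_DC

open Subgroup Pool.Agent.Helper95_DC

section unbounded

/-- a bounded antitone sequence of finite index subgroups stabilises. -/
theorem stabilises {A : Type} [Group A] (U : ℕ → Subgroup A) (hU : Antitone U)
    (hfi : ∀ j, (U j).FiniteIndex) (n : ℕ) (hn : ∀ j, (U j).index ≤ n) :
    ∃ j₀, ∀ j, j₀ ≤ j → U j = U j₀ := by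
  obtain ⟨j₀, hj₀⟩ : ∃ j₀, ∀ j, (U j).index ≤ (U j₀).index := by
    by_contra hcon
    push Not at hcon
    have : ∀ m : ℕ, ∃ j, m ≤ (U j).index := by
      intro m
      induction m with
      | zero => exact ⟨0, Nat.zero_le _⟩
      | succ m ih =>
        obtain ⟨j, hj⟩ := ih
        obtain ⟨j', hj'⟩ := hcon j
        exact ⟨j', by omega⟩
    obtain ⟨j, hj⟩ := this (n + 1)
    have := hn j
    omega
  refine ⟨j₀, fun j hj => ?_⟩
  have hle := hU hj
  have h1 := relIndex_mul_index hle
  have h2 := hj₀ j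
  have h3 : 0 < (U j₀).index := Nat.pos_of_ne_zero (hfi j₀).index_ne_zero
  have h4 : (U j).relIndex (U j₀) = 1 := by
    have h5 : (U j).relIndex (U j₀) ≠ 0 := by
      intro h0
      rw [h0, zero_mul] at h1
      exact (hfi j).index_ne_zero h1.symm
    have h6 : (U j).relIndex (U j₀) ≤ 1 := by
      by_contra hc
      push Not at hc
      nlinarith
    omega
  exact le_antisymm hle (relIndex_eq_one.1 h4)

/-- a proper subgroup containing a normal subgroup of `p`-power index is killed by a nontrivial
homomorphism to the cyclic group of order `p`. -/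
theorem exists_hom {p : ℕ} [Fact p.Prime] {W : Type} [Group W] (L N : Subgroup W) (hL : L ≠ ⊤)
    (hN : N.Normal) (hNL : N ≤ L) (k : ℕ) (hk : N.index = p ^ k) :
    ∃ φ : W →* Multiplicative (ZMod p), φ ≠ 1 ∧ ∀ x ∈ L, φ x = 1 := by
  have hp : p.Prime := Fact.out
  have hcard : Nat.card (W ⧸ N) = p ^ k := by
    rw [← hk]; rfl
  have hfin : Finite (W ⧸ N) := Nat.finite_of_card_ne_zero (by
    rw [hcard]; exact pow_ne_zero _ hp.ne_zero)
  have hL' : L.map (QuotientGroup.mk' N) ≠ ⊤ := by
    intro h
    apply hL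
    have h1 := congrArg (Subgroup.comap (QuotientGroup.mk' N)) h
    rw [Subgroup.comap_map_eq_self (by rw [QuotientGroup.ker_mk']; exact hNL),
      Subgroup.comap_top] at h1
    exact h1
  have hdvd : Nat.card (L.map (QuotientGroup.mk' N)) ∣ p ^ k := by
    rw [← hcard]
    exact Subgroup.card_subgroup_dvd_card _
  obtain ⟨a, ha, hcL⟩ := (Nat.dvd_prime_pow hp).1 hdvd
  have hak : a < k := by
    rcases Nat.lt_or_ge a k with h | h
    · exact h
    · exfalso
      apply hL'
      have : a = k := le_antisymm ha h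
      apply Subgroup.eq_top_of_card_eq
      rw [hcL, this, hcard]
  obtain ⟨M, hM, hLM⟩ := Sylow.exists_subgroup_card_pow_prime_le (G := W ⧸ N) p
    (n := a) (m := k - 1) (by rw [hcard]; exact pow_dvd_pow _ (by omega)) _ hcL (by omega)
  have hMi : M.index = p := by
    have h1 := M.card_mul_index
    rw [hM, hcard] at h1
    have h2 : p ^ k = p ^ (k - 1) * p := by
      rw [← pow_succ]
      congr 1
      omega
    rw [h2] at h1
    exact Nat.eq_of_mul_eq_mul_left (pow_pos hp.pos _) h1
  have hMn : M.Normal := by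
    apply Subgroup.normal_of_index_eq_minFac_card
    rw [hMi, hcard, Nat.Prime.pow_minFac hp (by omega)]
  have hq : Nat.card ((W ⧸ N) ⧸ M) = p := by
    rw [← hMi]; rfl
  have hz : Nat.card (Multiplicative (ZMod p)) = p := by
    rw [Nat.card_congr Multiplicative.toAdd, Nat.card_zmod]
  let e : ((W ⧸ N) ⧸ M) ≃* Multiplicative (ZMod p) := mulEquivOfPrimeCardEq hq hz
  let φ : W →* Multiplicative (ZMod p) :=
    (e.toMonoidHom.comp (QuotientGroup.mk' M)).comp (QuotientGroup.mk' N)
  have hφs : Function.Surjective φ := by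
    have h1 : Function.Surjective (e.toMonoidHom.comp (QuotientGroup.mk' M)) :=
      e.surjective.comp (QuotientGroup.mk'_surjective M)
    exact h1.comp (QuotientGroup.mk'_surjective N)
  refine ⟨φ, ?_, ?_⟩
  · intro h
    have h1 : ∀ z : Multiplicative (ZMod p), z = 1 := by
      intro z
      obtain ⟨w, rfl⟩ := hφs z
      rw [h]; rfl
    have : Subsingleton (Multiplicative (ZMod p)) := ⟨fun a b => by rw [h1 a, h1 b]⟩
    have h2 : Nat.card (Multiplicative (ZMod p)) ≤ 1 := Finite.card_le_one_iff_subsingleton.2 this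
    rw [hz] at h2
    exact absurd h2 (by have := hp.two_le; omega)
  · intro x hx
    have h1 : QuotientGroup.mk' N x ∈ M := hLM ⟨x, hx, rfl⟩
    change e (QuotientGroup.mk' M (QuotientGroup.mk' N x)) = 1
    have h2 : QuotientGroup.mk' M (QuotientGroup.mk' N x) = 1 :=
      (QuotientGroup.eq_one_iff _).2 h1
    rw [h2, map_one]

/-- finitely many homomorphisms from a finitely generated group to a finite group. -/
theorem finite_hom {W C : Type} [Group W] [Group C] [Finite C] [Group.FG W] :
    Finite (W →* C) := by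
  obtain ⟨S, hS⟩ := (inferInstance : Group.FG W).out
  have : Function.Injective (fun φ : W →* C => fun s : S => φ s) := by
    intro φ ψ h
    apply MonoidHom.eq_of_eqOn_dense hS
    intro s hs
    exact congrFun h ⟨s, hs⟩
  exact Finite.of_injective _ this

theorem unbounded {p : ℕ} [Fact p.Prime] {A : Type} [Group A] [Group.FG A] [Infinite A]
    (hd : Dich A) (V : ℕ → Subgroup A) (hanti : Antitone V) (hn : ∀ j, (V j).Normal)
    (hp : ∀ j, ∃ k, (V j).index = p ^ k) (hbot : ⨅ j, V j = ⊥) (H : Subgroup A)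
    (hH : ¬ H.FiniteIndex) (n : ℕ) : ∃ j, n ≤ (H ⊔ V j).index := by
  classical
  by_contra hcon
  push Not at hcon
  have hpp : p.Prime := Fact.out
  have hVfi : ∀ j, (V j).FiniteIndex := by
    intro j
    obtain ⟨k, hk⟩ := hp j
    exact ⟨by rw [hk]; exact pow_ne_zero _ hpp.ne_zero⟩
  have hHfi : ∀ j, (H ⊔ V j).FiniteIndex := by
    intro j
    have := hVfi j
    exact Subgroup.finiteIndex_of_le (K := H ⊔ V j) (H := V j) le_sup_right
  obtain ⟨j₀, hj₀⟩ := stabilises (fun j => H ⊔ V j)
    (fun i j hij => sup_le_sup_left (hanti hij) H) hHfi n (fun j => (hcon j).le)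
  set W : Subgroup A := H ⊔ V j₀ with hW
  have hWfi : W.FiniteIndex := hHfi j₀
  have hWj : ∀ j, j₀ ≤ j → H ⊔ V j = W := fun j hj => hj₀ j hj
  have hHW : H ≤ W := le_sup_left
  have hVW : ∀ j, j₀ ≤ j → V j ≤ W := fun j hj => by
    rw [← hWj j hj]; exact le_sup_right
  have : Finite (Multiplicative (ZMod p)) := by
    have : NeZero p := ⟨hpp.ne_zero⟩
    infer_instance
  have hfinhom : Finite (W →* Multiplicative (ZMod p)) := finite_hom
  -- the bad homomorphisms
  have hbad : ∀ φ : W →* Multiplicative (ZMod p), ∃ h : A, h ∈ H ∧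
      ((φ ≠ 1 ∧ ∃ j, j₀ ≤ j ∧ ∀ v : W, (v : A) ∈ V j → φ v = 1) →
        ∃ hw : h ∈ W, φ ⟨h, hw⟩ ≠ 1) := by
    intro φ
    by_cases hφ : φ ≠ 1 ∧ ∃ j, j₀ ≤ j ∧ ∀ v : W, (v : A) ∈ V j → φ v = 1
    · obtain ⟨hφ1, j, hj, hφj⟩ := hφ
      by_contra hc
      push Not at hc
      apply hφ1
      have hker : W ≤ φ.ker.map W.subtype := by
        have h1 : H ≤ φ.ker.map W.subtype := by
          intro h hh
          obtain ⟨_, h2⟩ := hc h hh
          exact ⟨⟨h, hHW hh⟩, h2 (hHW hh), rfl⟩
        have h2 : V j ≤ φ.ker.map W.subtype := by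
          intro v hv
          exact ⟨⟨v, hVW j hj hv⟩, hφj ⟨v, hVW j hj hv⟩ hv, rfl⟩
        calc W = H ⊔ V j := (hWj j hj).symm
          _ ≤ _ := sup_le h1 h2
      ext w
      obtain ⟨w', hw', hww'⟩ := hker w.2
      have : w' = w := Subtype.ext hww'
      subst this
      rw [show φ w' = 1 from hw']
      rfl
    · exact ⟨1, one_mem _, fun h => absurd h hφ⟩
  choose h hhH hh using hbad
  let K : Subgroup A := closure (Set.range h)
  have hKfg : K.FG := by
    rw [Subgroup.fg_iff]
    exact ⟨Set.range h, rfl, Set.finite_range h⟩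
  have hKH : K ≤ H := by
    rw [closure_le]
    rintro _ ⟨φ, rfl⟩
    exact hhH φ
  have hKfin : Finite K := fg_finite_of_le hd hH hKfg hKH
  -- `K V_j = W` for all large `j`
  have hKV : ∀ j, j₀ ≤ j → K ⊔ V j = W := by
    intro j hj
    have hle : K ⊔ V j ≤ W := sup_le (hKH.trans hHW) (hVW j hj)
    by_contra hne
    obtain ⟨k, hk⟩ := hp j
    have hVn : ((V j).subgroupOf W).Normal := by
      have := hn j
      infer_instance
    obtain ⟨k', hk'⟩ : ∃ k', ((V j).subgroupOf W).index = p ^ k' := by
      have h1 : (V j).relIndex W ∣ p ^ k := by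
        rw [← hk, ← relIndex_mul_index (hVW j hj)]
        exact dvd_mul_right _ _
      obtain ⟨a, _, ha⟩ := (Nat.dvd_prime_pow hpp).1 h1
      exact ⟨a, ha⟩
    have hLne : (K ⊔ V j).subgroupOf W ≠ ⊤ := by
      intro htop
      rw [Subgroup.subgroupOf_eq_top] at htop
      exact hne (le_antisymm hle htop)
    obtain ⟨φ, hφ1, hφ2⟩ := exists_hom (p := p) ((K ⊔ V j).subgroupOf W)
      ((V j).subgroupOf W) hLne hVn
      (fun x hx => by
        rw [Subgroup.mem_subgroupOf] at hx ⊢
        exact Subgroup.mem_sup_right hx) k' hk'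
    obtain ⟨hw, hw2⟩ := hh φ ⟨hφ1, j, hj, fun v hv => hφ2 v (by
      rw [Subgroup.mem_subgroupOf]
      exact Subgroup.mem_sup_right hv)⟩
    apply hw2
    apply hφ2
    rw [Subgroup.mem_subgroupOf]
    exact Subgroup.mem_sup_left (subset_closure ⟨φ, rfl⟩)
  -- bounded index, contradiction
  have hbd : ∀ j, (V j).index ≤ Nat.card K * W.index := by
    have hmain : ∀ j, j₀ ≤ j → (V j).index ≤ Nat.card K * W.index := by
      intro j hj
      have := hn j
      rw [← relIndex_mul_index (hVW j hj), ← hKV j hj, relIndex_sup_right]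
      exact Nat.mul_le_mul_right _
        (Nat.le_of_dvd (Nat.card_pos) (Subgroup.relIndex_dvd_card (V j) K))
    intro j
    rcases le_total j₀ j with hj | hj
    · exact hmain j hj
    · refine le_trans ?_ (hmain j₀ le_rfl)
      exact Nat.le_of_dvd (Nat.pos_of_ne_zero (hVfi j₀).index_ne_zero)
        (Subgroup.index_dvd_of_le (hanti hj))
  obtain ⟨j₁, hj₁⟩ := stabilises V hanti hVfi _ hbd
  have hV1 : V j₁ = ⊥ := by
    rw [← hbot]
    apply le_antisymm
    · apply le_iInf
      intro j
      rcases le_total j₁ j with hj | hj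
      · rw [hj₁ j hj]
      · exact hanti hj
    · exact iInf_le _ _
  have := hVfi j₁
  rw [hV1] at this
  exact bot_not_fi this

end unbounded

section radical

variable {A : Type} [Group A]

theorem dich_sub (hd : Dich A) (N : Subgroup A) : Dich N := by
  intro H hH
  have h1 : (H.map N.subtype).FG := by
    obtain ⟨S, hS⟩ := (Subgroup.fg_iff _).1 hH
    rw [Subgroup.fg_iff]
    exact ⟨N.subtype '' S, by rw [← MonoidHom.map_closure, hS.1], hS.2.image _⟩
  rcases hd _ h1 with h | h
  · left
    have : Function.Injective (fun x : H => (⟨N.subtype x, ⟨x, x.2, rfl⟩⟩ : H.map N.subtype)) := by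
      intro x y hxy
      have := congrArg Subtype.val hxy
      exact Subtype.ext (Subtype.ext this)
    exact Finite.of_injective _ this
  · right
    constructor
    have h2 : (H.map N.subtype).relIndex N = H.index := by
      rw [Subgroup.relIndex, Subgroup.subgroupOf, Subgroup.comap_map_eq_self_of_injective
        (Subgroup.subtype_injective N)]
    rw [← h2]
    intro h0
    have h3 : (H.map N.subtype) ≤ N := Subgroup.map_subtype_le H
    have h4 := relIndex_mul_index h3
    rw [h0, zero_mul] at h4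
    exact h.index_ne_zero h4.symm

/-- The radical property of the quotient. -/
theorem radical_property [Group.FG A] [Infinite A] (hd : Dich A) (ht : ∀ g : A, IsOfFinOrder g)
    (hrad : ∀ N : Subgroup A, N.Normal → ¬ N.FiniteIndex → N = ⊥)
    (M N : Subgroup A) (hN : N.FiniteIndex) (hM : ¬ M.FiniteIndex)
    (hMN : ∀ n ∈ N, ∀ m ∈ M, n * m * n⁻¹ ∈ M) : M = ⊥ := by
  classical
  set N₀ : Subgroup A := N.normalCore with hN₀
  have hN₀fi : N₀.FiniteIndex := Subgroup.finiteIndex_normalCore N
  have hN₀n : N₀.Normal := Subgroup.normalCore_normal N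
  have hN₀N : N₀ ≤ N := Subgroup.normalCore_le N
  have hN₀inf : Infinite N₀ := by
    by_contra hc
    rw [not_infinite_iff_finite] at hc
    have : Finite A := finite_of_finite_fi N₀ hc hN₀fi
    exact not_finite A
  have hd0 : Dich N₀ := dich_sub hd N₀
  -- the radical of `N₀` is trivial
  have hrad0 : ∀ x : N₀, x ∈ rad hd0 → x = 1 := by
    have h1 : ((rad hd0).map N₀.subtype).Normal := by
      constructor
      rintro _ ⟨x, hx, rfl⟩ g
      let φ : N₀ ≃* N₀ := MulAut.conjNormal g
      refine ⟨φ x, rad_equiv hd0 φ hx, ?_⟩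
      exact MulAut.conjNormal_apply g x
    have h2 : ¬ ((rad hd0).map N₀.subtype).FiniteIndex := by
      intro h
      apply rad_not_fi hd0
      constructor
      have h3 : ((rad hd0).map N₀.subtype).relIndex N₀ = (rad hd0).index := by
        rw [Subgroup.relIndex, Subgroup.subgroupOf, Subgroup.comap_map_eq_self_of_injective
          (Subgroup.subtype_injective N₀)]
      rw [← h3]
      intro h0
      have h4 := relIndex_mul_index (Subgroup.map_subtype_le (rad hd0))
      rw [h0, zero_mul] at h4
      exact h.index_ne_zero h4.symm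
    have h3 := hrad _ h1 h2
    intro x hx
    have h4 : (x : A) ∈ (rad hd0).map N₀.subtype := ⟨x, hx, rfl⟩
    rw [h3, Subgroup.mem_bot] at h4
    exact Subtype.ext h4
  -- `M ∩ N₀ = 1`
  have hMN0 : ∀ m, m ∈ M → m ∈ N₀ → m = 1 := by
    intro m hm hm0
    have hn : (M.subgroupOf N₀).Normal := by
      constructor
      intro x hx g
      rw [Subgroup.mem_subgroupOf] at hx ⊢
      exact hMN g (hN₀N g.2) x hx
    have hnfi : ¬ (M.subgroupOf N₀).FiniteIndex := by
      intro h
      apply hM
      have h1 : (M ⊓ N₀).FiniteIndex := by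
        constructor
        have h2 := relIndex_mul_index (inf_le_right : M ⊓ N₀ ≤ N₀)
        rw [← h2]
        apply mul_ne_zero
        · rw [Subgroup.inf_relIndex_right]
          exact h.index_ne_zero
        · exact hN₀fi.index_ne_zero
      exact Subgroup.finiteIndex_of_le (inf_le_left : M ⊓ N₀ ≤ M)
    have h1 := hrad0 ⟨m, hm0⟩ (le_rad hd0 _ hn hnfi (by
      rw [Subgroup.mem_subgroupOf]; exact hm))
    exact congrArg Subtype.val h1
  -- `M` is finite
  have hMfin : Finite M := by
    have hinj : Function.Injective (fun m : M => (QuotientGroup.mk (m : A) : A ⧸ N₀)) := by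
      intro a b hab
      have h1 := QuotientGroup.eq.1 hab
      have h2 := hMN0 _ (mul_mem (inv_mem a.2) b.2) h1
      exact Subtype.ext (inv_mul_eq_one.1 h2)
    exact Finite.of_injective _ hinj
  rw [eq_bot_iff]
  intro m hm
  rw [Subgroup.mem_bot]
  -- `N₀` centralises `m`
  have hcent : ∀ g ∈ N₀, g * m = m * g := by
    intro g hg
    have h1 : g * m * g⁻¹ * m⁻¹ ∈ M := mul_mem (hMN g (hN₀N hg) m hm) (inv_mem hm)
    have h2 : g * m * g⁻¹ * m⁻¹ ∈ N₀ := by
      have h3 : m * g⁻¹ * m⁻¹ ∈ N₀ := hN₀n.conj_mem _ (inv_mem hg) m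
      have : g * m * g⁻¹ * m⁻¹ = g * (m * g⁻¹ * m⁻¹) := by group
      rw [this]
      exact mul_mem hg h3
    have h3 := hMN0 _ h1 h2
    have h4 : g * m * g⁻¹ = m := by
      have := congrArg (fun y => y * m) h3
      simpa [mul_assoc] using this
    calc g * m = g * m * g⁻¹ * g := by group
      _ = m * g := by rw [h4]
  -- the conjugates of `m`
  have hconjcent : ∀ a : A, ∀ g ∈ N₀, g * (a * m * a⁻¹) = (a * m * a⁻¹) * g := by
    intro a g hg
    have h1 : a⁻¹ * g * a ∈ N₀ := by
      have := hN₀n.conj_mem g hg a⁻¹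
      simpa using this
    have h2 := hcent _ h1
    calc g * (a * m * a⁻¹) = a * ((a⁻¹ * g * a) * m) * a⁻¹ := by group
      _ = a * (m * (a⁻¹ * g * a)) * a⁻¹ := by rw [h2]
      _ = (a * m * a⁻¹) * g := by group
  let L : Subgroup A := Subgroup.normalClosure {m}
  have hLn : L.Normal := Subgroup.normalClosure_normal
  have hmL : m ∈ L := Subgroup.subset_normalClosure (Set.mem_singleton m)
  -- `N₀` centralises `L`
  have hcentL : ∀ g ∈ N₀, ∀ x ∈ L, g * x = x * g := by
    intro g hg x hx
    have h1 : L ≤ Subgroup.centralizer {g} := by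
      show Subgroup.normalClosure {m} ≤ Subgroup.centralizer {g}
      rw [Subgroup.normalClosure, Subgroup.closure_le]
      intro y hy
      rw [Group.mem_conjugatesOfSet_iff] at hy
      obtain ⟨z, hz, hzy⟩ := hy
      rw [Set.mem_singleton_iff] at hz
      subst hz
      rw [isConj_iff] at hzy
      obtain ⟨c, rfl⟩ := hzy
      rw [SetLike.mem_coe, Subgroup.mem_centralizer_singleton_iff]
      exact (hconjcent c g hg).symm
    have h2 := h1 hx
    rw [Subgroup.mem_centralizer_singleton_iff] at h2
    exact h2.symm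
  by_cases hLfi : L.FiniteIndex
  · exfalso
    -- `L ∩ N₀` is abelian of finite index
    have hZfi : (L ⊓ N₀).FiniteIndex := inferInstance
    have hZfg : Group.FG (L ⊓ N₀ : Subgroup A) := inferInstance
    let Z : Subgroup A := L ⊓ N₀
    let : CommGroup Z :=
      { (inferInstance : Group Z) with
        mul_comm := fun a b => Subtype.ext (hcentL a a.2.2 b b.2.1) }
    have hZt : ∀ z : Z, IsOfFinOrder z := by
      intro z
      have := ht (z : A)
      exact (Submonoid.isOfFinOrder_coe (x := z)).1 this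
    have : Finite Z := by
      exact CommGroup.finite_of_fg_isMulTorsion Z hZt
    have : Finite A := finite_of_finite_fi Z this hZfi
    exact not_finite A
  · have h1 := hrad L hLn hLfi
    rw [h1, Subgroup.mem_bot] at hmL
    exact hmL

end radical

/-- MODULE RAD. -/
theorem rad_statement : RadStatement := by
  intro p _ Γ _ hfg hinf hd ht ⟨V, hanti, hVn, hVp, hVbot⟩
  have hd' : Dich Γ := hd
  let R : Subgroup Γ := rad hd'
  have hRn : R.Normal := rad_normal hd'
  have hRfi : ¬ R.FiniteIndex := rad_not_fi hd'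
  have hsurj := QuotientGroup.mk'_surjective R
  have hQinf : Infinite (Γ ⧸ R) := by
    by_contra hc
    rw [not_infinite_iff_finite] at hc
    exact hRfi (Subgroup.finiteIndex_iff_finite_quotient.2 hc)
  have hQd : Dich (Γ ⧸ R) := by
    intro H hH
    obtain ⟨K, hK, -, hKH⟩ := exists_fg_lift (QuotientGroup.mk' R) ⊤ hH (by
      rw [Subgroup.map_top_of_surjective _ hsurj]
      exact le_top)
    rcases hd' K hK with h | h
    · left
      rw [← hKH]
      exact finite_map _ K
    · right
      rw [← hKH]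
      exact finiteIndex_map_of_surj _ hsurj K h
  have hVfi : ∀ j, (V j).FiniteIndex := by
    intro j
    obtain ⟨k, hk⟩ := hVp j
    exact ⟨by rw [hk]; exact pow_ne_zero _ (Fact.out : p.Prime).ne_zero⟩
  have hcomap : ∀ (H : Subgroup Γ) , R ≤ H → ∀ j,
      ((H.map (QuotientGroup.mk' R)) ⊔ (V j).map (QuotientGroup.mk' R)).index = (H ⊔ V j).index := by
    intro H hRH j
    rw [← Subgroup.map_sup, ← index_comap_of_surjective _ hsurj,
      Subgroup.comap_map_eq_self (by rw [QuotientGroup.ker_mk']; exact hRH.trans le_sup_left)]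
  refine ⟨R, hRn, hQinf, hQd, ⟨fun j => (V j).map (QuotientGroup.mk' R), ?_, ?_, ?_, ?_, ?_⟩, ?_⟩
  · intro i j hij
    exact Subgroup.map_mono (hanti hij)
  · intro j
    exact (hVn j).map _ hsurj
  · intro j
    exact finiteIndex_map_of_surj _ hsurj _ (hVfi j)
  · rw [eq_bot_iff]
    intro x hx
    obtain ⟨g, rfl⟩ := hsurj x
    have hVn' := hVn
    let Rbar : Subgroup Γ := ⨅ j, (R ⊔ V j)
    have hRbn : Rbar.Normal := Subgroup.normal_iInf_normal (fun j => by
      have := hVn j
      infer_instance)
    have hRbfi : ¬ Rbar.FiniteIndex := by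
      intro h
      obtain ⟨j, hj⟩ := unbounded hd' V hanti hVn hVp hVbot R hRfi (Rbar.index + 1)
      have h1 : Rbar ≤ R ⊔ V j := iInf_le _ j
      have h2 := Nat.le_of_dvd (Nat.pos_of_ne_zero h.index_ne_zero) (Subgroup.index_dvd_of_le h1)
      omega
    have hle : Rbar ≤ R := le_rad hd' Rbar hRbn hRbfi
    have hg : g ∈ Rbar := by
      rw [Subgroup.mem_iInf]
      intro j
      have h1 := (Subgroup.mem_iInf.1 hx) j
      have h2 : g ∈ ((V j).map (QuotientGroup.mk' R)).comap (QuotientGroup.mk' R) := h1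
      rw [Subgroup.comap_map_eq, QuotientGroup.ker_mk', sup_comm] at h2
      exact h2
    rw [Subgroup.mem_bot]
    exact (QuotientGroup.eq_one_iff g).2 (hle hg)
  · intro H hH n
    have hRH : R ≤ H.comap (QuotientGroup.mk' R) := by
      intro x hx
      rw [Subgroup.mem_comap]
      have : QuotientGroup.mk' R x = 1 := (QuotientGroup.eq_one_iff x).2 hx
      rw [this]
      exact one_mem _
    have hH' : ¬ (H.comap (QuotientGroup.mk' R)).FiniteIndex := by
      rw [finiteIndex_comap_iff _ hsurj]
      exact hH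
    obtain ⟨j, hj⟩ := unbounded hd' V hanti hVn hVp hVbot _ hH' n
    refine ⟨j, ?_⟩
    have h1 := hcomap _ hRH j
    rw [Subgroup.map_comap_eq_self_of_surjective hsurj] at h1
    rw [h1]
    exact hj
  · have hQfg : Group.FG (Γ ⧸ R) := inferInstance
    apply radical_property hQd
    · intro g
      obtain ⟨γ, rfl⟩ := hsurj g
      exact (QuotientGroup.mk' R).isOfFinOrder (ht γ)
    · intro N hN hNfi
      have h1 : (N.comap (QuotientGroup.mk' R)).Normal := hN.comap _
      have h2 : ¬ (N.comap (QuotientGroup.mk' R)).FiniteIndex := by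
        rw [finiteIndex_comap_iff _ hsurj]
        exact hNfi
      have h3 := le_rad hd' _ h1 h2
      rw [eq_bot_iff]
      intro x hx
      obtain ⟨γ, rfl⟩ := hsurj x
      rw [Subgroup.mem_bot]
      exact (QuotientGroup.eq_one_iff γ).2 (h3 hx)

end Pool.Agent.Helper38_DC
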