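import Pool.Agent.Helper95_DC.Defs

set_option autoImplicit false

/-!
Module RAD: the locally finite radical of a group in which every finitely generated subgroup is
finite or of finite index.
-/

namespace Pool.Agent.Helper38_DC

open Subgroup

/-- The dichotomy: every finitely generated subgroup is finite or of finite index. -/
def Dich (A : Type) [Group A] : Prop := ∀ H : Subgroup A, H.FG → Finite H ∨ H.FiniteIndex

section basic

variable {A : Type} [Group A]

theorem fg_finite_of_le (hd : Dich A) {H K : Subgroup A} (hH : ¬ H.FiniteIndex) (hK : K.FG)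
    (hle : K ≤ H) : Finite K := by
  rcases hd K hK with h | h
  · exact h
  · exact absurd (Subgroup.finiteIndex_of_le hle) hH

theorem fg_of_fi [Group.FG A] (H : Subgroup A) (h : H.FiniteIndex) : H.FG := by
  rw [← Group.fg_iff_subgroup_fg]
  infer_instance

/-- lifting finitely generated subgroups of an image. -/
theorem exists_fg_lift {B : Type} [Group B] (f : A →* B) (N : Subgroup A) {L : Subgroup B}
    (hL : L.FG) (hle : L ≤ N.map f) : ∃ K : Subgroup A, K.FG ∧ K ≤ N ∧ K.map f = L := by
  classical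
  obtain ⟨S, hS⟩ := hL
  have h1 : ∀ s ∈ S, ∃ a ∈ N, f a = s := by
    intro s hs
    have : s ∈ L := by rw [← hS]; exact subset_closure hs
    obtain ⟨a, ha, hfa⟩ := hle this
    exact ⟨a, ha, hfa⟩
  choose! g hg1 hg2 using h1
  refine ⟨closure (S.image g : Finset A), ⟨S.image g, rfl⟩, ?_, ?_⟩
  · rw [closure_le]
    intro a ha
    rw [Finset.mem_coe, Finset.mem_image] at ha
    obtain ⟨s, hs, rfl⟩ := ha
    exact hg1 s hs
  · rw [MonoidHom.map_closure, ← hS]
    congr 1
    ext b
    constructor
    · rintro ⟨a, ha, rfl⟩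
      rw [Finset.mem_coe, Finset.mem_image] at ha
      obtain ⟨s, hs, rfl⟩ := ha
      rw [hg2 s hs]
      exact hs
    · intro hb
      refine ⟨g b, ?_, hg2 b hb⟩
      rw [Finset.mem_coe, Finset.mem_image]
      exact ⟨b, hb, rfl⟩

theorem finite_map {B : Type} [Group B] (f : A →* B) (K : Subgroup A) [Finite K] :
    Finite (K.map f) := by
  have : (K.map f : Set B) = f '' (K : Set A) := rfl
  have h : ((K.map f : Subgroup B) : Set B).Finite := by
    rw [this]
    exact (Set.toFinite (K : Set A)).image f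
  exact h

theorem finite_of_finite_fi {B : Type} [Group B] (L : Subgroup B) (h1 : Finite L)
    (h2 : L.FiniteIndex) : Finite B := by
  have h := L.card_mul_index
  apply Nat.finite_of_card_ne_zero
  rw [← h]
  exact mul_ne_zero (Nat.card_pos (α := L)).ne' h2.index_ne_zero

theorem finiteIndex_map_of_surj {B : Type} [Group B] (f : A →* B) (hf : Function.Surjective f)
    (K : Subgroup A) (h : K.FiniteIndex) : (K.map f).FiniteIndex := by
  have h1 : ((K.map f).comap f).FiniteIndex :=
    Subgroup.finiteIndex_of_le (Subgroup.le_comap_map f K)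
  constructor
  rw [← index_comap_of_surjective (K.map f) hf]
  exact h1.index_ne_zero

theorem finiteIndex_comap_iff {B : Type} [Group B] (f : A →* B) (hf : Function.Surjective f)
    (K : Subgroup B) : (K.comap f).FiniteIndex ↔ K.FiniteIndex := by
  constructor
  · intro h
    constructor
    rw [← index_comap_of_surjective K hf]
    exact h.index_ne_zero
  · intro h
    constructor
    rw [index_comap_of_surjective K hf]
    exact h.index_ne_zero

/-- the join of two infinite index subgroups, one of which is normal, has infinite index. -/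
theorem join_not_fi [Group.FG A] (hd : Dich A) (N₁ N₂ : Subgroup A) [N₁.Normal]
    (h1 : ¬ N₁.FiniteIndex) (h2 : ¬ N₂.FiniteIndex) : ¬ (N₁ ⊔ N₂).FiniteIndex := by
  intro hfi
  apply h1
  have hsurj := QuotientGroup.mk'_surjective N₁
  have hmap : (N₁ ⊔ N₂).map (QuotientGroup.mk' N₁) = N₂.map (QuotientGroup.mk' N₁) := by
    rw [Subgroup.map_sup]
    have : N₁.map (QuotientGroup.mk' N₁) = ⊥ := by
      rw [Subgroup.map_eq_bot_iff, QuotientGroup.ker_mk']
    rw [this, bot_sup_eq]
  have hfi' := finiteIndex_map_of_surj _ hsurj _ hfi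
  have hfg' : (N₂.map (QuotientGroup.mk' N₁)).FG := by
    rw [← hmap]
    exact fg_of_fi _ hfi'
  obtain ⟨K, hKfg, hKle, hK⟩ := exists_fg_lift (QuotientGroup.mk' N₁) N₂ hfg' le_rfl
  have hKfin : Finite K := fg_finite_of_le hd h2 hKfg hKle
  have h3 : Finite (N₂.map (QuotientGroup.mk' N₁)) := by
    rw [← hK]
    exact finite_map _ K
  rw [hmap] at hfi'
  have : Finite (A ⧸ N₁) := finite_of_finite_fi _ h3 hfi'
  exact Subgroup.finiteIndex_iff_finite_quotient.2 this

theorem bot_not_fi [Infinite A] : ¬ (⊥ : Subgroup A).FiniteIndex := by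
  intro h
  have : Finite A := finite_of_finite_fi ⊥ inferInstance h
  exact not_finite A

/-- The radical: the largest normal subgroup of infinite index. -/
def rad [Group.FG A] [Infinite A] (hd : Dich A) : Subgroup A where
  carrier := {x | ∃ N : Subgroup A, N.Normal ∧ ¬ N.FiniteIndex ∧ x ∈ N}
  one_mem' := ⟨⊥, inferInstance, bot_not_fi, one_mem _⟩
  mul_mem' := by
    rintro x y ⟨N₁, hN₁, h1, hx⟩ ⟨N₂, hN₂, h2, hy⟩
    exact ⟨N₁ ⊔ N₂, inferInstance, join_not_fi hd N₁ N₂ h1 h2,
      mul_mem (Subgroup.mem_sup_left hx) (Subgroup.mem_sup_right hy)⟩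
  inv_mem' := by
    rintro x ⟨N, hN, h1, hx⟩
    exact ⟨N, hN, h1, inv_mem hx⟩

theorem le_rad [Group.FG A] [Infinite A] (hd : Dich A) (N : Subgroup A) (hN : N.Normal)
    (h : ¬ N.FiniteIndex) : N ≤ rad hd := fun _ hx => ⟨N, hN, h, hx⟩

theorem rad_normal [Group.FG A] [Infinite A] (hd : Dich A) : (rad hd).Normal := by
  constructor
  rintro x ⟨N, hN, h1, hx⟩ g
  exact ⟨N, hN, h1, hN.conj_mem x hx g⟩

theorem rad_not_fi [Group.FG A] [Infinite A] (hd : Dich A) : ¬ (rad hd).FiniteIndex := by
  classical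
  intro hfi
  obtain ⟨S, hS⟩ := fg_of_fi _ hfi
  have key : ∀ T : Finset A, (∀ t ∈ T, t ∈ rad hd) →
      ∃ N : Subgroup A, N.Normal ∧ ¬ N.FiniteIndex ∧ ∀ t ∈ T, t ∈ N := by
    intro T
    induction T using Finset.induction_on with
    | empty =>
      intro _
      exact ⟨⊥, inferInstance, bot_not_fi, by simp⟩
    | insert a T _ ih =>
      intro h
      obtain ⟨N₁, hN₁, h1, hT⟩ := ih (fun t ht => h t (Finset.mem_insert_of_mem ht))
      obtain ⟨N₂, hN₂, h2, ha⟩ := h a (Finset.mem_insert_self a T)
      refine ⟨N₁ ⊔ N₂, inferInstance, join_not_fi hd N₁ N₂ h1 h2, ?_⟩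
      intro t ht
      rw [Finset.mem_insert] at ht
      rcases ht with rfl | ht
      · exact Subgroup.mem_sup_right ha
      · exact Subgroup.mem_sup_left (hT t ht)
  obtain ⟨N, hN, h1, h2⟩ := key S (fun t ht => by rw [← hS]; exact subset_closure ht)
  apply h1
  have : rad hd ≤ N := by
    rw [← hS, closure_le]
    exact h2
  exact Subgroup.finiteIndex_of_le this

theorem rad_equiv [Group.FG A] [Infinite A] (hd : Dich A) (φ : A ≃* A) {x : A}
    (hx : x ∈ rad hd) : φ x ∈ rad hd := by
  obtain ⟨N, hN, h1, hx⟩ := hx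
  refine ⟨N.map φ.toMonoidHom, hN.map _ φ.surjective, ?_, ⟨x, hx, rfl⟩⟩
  intro h
  apply h1
  have h2 := (finiteIndex_comap_iff φ.toMonoidHom φ.surjective (N.map φ.toMonoidHom)).2 h
  rwa [Subgroup.comap_map_eq_self_of_injective φ.injective] at h2

end basic

end Pool.Agent.Helper38_DC
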